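import Pool.Agent.D0H58.OR.Fin

/-!
# Dense ordinary reduction of hyperelliptic curves with large monodromy

Let `k` be an algebraically closed field of characteristic `0` and `C : y² = ∏ (x - a s)`, `s ∈ Fin n`, a
hyperelliptic curve over `k` of genus `g = ⌊(n - 1) / 2⌋`.

The classes `e_s` of the forms `dx / ((x - a s) y)` span the first de Rham cohomology `H` of `C`, and
`∑ e_s = 0` (for odd `n` this is the only relation, for even `n` there is one more). So tensors of degree
`g` in `H` are given by functions `T : (Fin g → Fin n) → k` (`T` stands for
`∑_s T s • e_(s 1) ⊗ ⋯ ⊗ e_(s g)`). In these coordinates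

* the Gauss-Manin connection in the direction of a derivation `δ` of `k` is
  `∇_δ e_s = - (1 / 2) ∑_t (δ (a s - a t) / (a s - a t)) (e_s - e_t)`, which gives `gaussManin` on tensors;
* the holomorphic forms are the `∑ R (a s) e_s` for polynomials `R` of degree at most `g` (`R` modulo
  constants), so `volume` is the antisymmetric tensor of the product `ω₁ ∧ ⋯ ∧ ω_g` of a basis of the
  holomorphic forms;
* the cup product is `cup` (up to a constant); its radical on `k ^ n` is the space of relations.

`flatSpan` is the smallest `k`-linear space of tensors which contains `volume` and is stable under the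
Gauss-Manin connection in the directions of all derivations of `k`.

**Condition `Spread`.** No Lagrangian subspace of `H` kills `flatSpan`: for every Lagrangian subspace `U`
some tensor in `flatSpan` has nonzero image in `⋀ ^ g (H / U)`. (`U` is given by `g` linearly independent
functionals `μ j` on `k ^ n`, with `μ j (1, …, 1) = 0`, whose common kernel is isotropic for the cup
product; for reasons of dimension this kernel contains the relations.)

The primitive part of `⋀ ^ g H` is spanned by the products of Lagrangian subspaces, and every Lagrangian
subspace has a complementary one. So `Spread` holds if `flatSpan` is the primitive part of `⋀ ^ g H`, and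
this is true if the primitive part is an irreducible module with connection: for instance if `C` is
the generic fibre (with scalars extended to `k`) of a family, of any dimension `≥ 1`, of hyperelliptic
curves with monodromy group Zariski dense in `Sp_2g`.

**Condition `FirstOrder`.** There is a derivation `δ₀` of `k` which moves a branch point such that every
holomorphic form `P dx / y` (`deg P < g`) with `⟨P dx / y, ∇_δ (P dx / y)⟩ = 0` for all derivations `δ`
vanishes at all branch points moved by `δ₀`.

**Theorem.** Let `C_i` be finitely many hyperelliptic curves over `k` each of which has genus `0` or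
satisfies `FirstOrder` or `Spread`. Let `A ⊂ k` be a finitely generated ring over which the curves are
defined and `c ≠ 0` in `A`. Then for all large prime numbers `p` there is a closed point of `Spec A` of
characteristic `p` with `c ≠ 0` at which the Hasse-Witt matrices of all the curves are invertible.

For `c` divisible by `2` and the discriminants the reductions are smooth, and the Hasse-Witt matrix of
`C_i` is invertible if and only if the reduction of `C_i` is ordinary. So the closed points at which the
product of the `C_i` has ordinary reduction are dense in `Spec A`, above every large `p`.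

Proof for `Spread`: a finitely generated ring `R` which is stable under the derivations needed has, for
all large `p`, a prime ideal over `p` which is stable under all derivations. Modulo this prime ideal
the coefficients of `x ^ (p (j + 1) - 1)`, `j < g`, in `f ^ ((p - 1) / 2) / (x - a s)` are `g` horizontal
functionals on the de Rham cohomology; their common kernel is isotropic of codimension `g` (the
conjugate filtration). Their value at `volume` is the determinant of the Hasse-Witt matrix up to a
nonzero factor. If it is zero, then it follows by differentiation that all tensors in `flatSpan` are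
killed. This contradicts the certificate which the Nullstellensatz gives for `Spread`.
-/

set_option autoImplicit false

universe u

open Polynomial

namespace Pool.Agent.Results.MP_adc574_ag.GaussManinCriterion

/-- The Hasse-Witt (Cartier-Manin) matrix of `y² = f(x)`: the entry with indices `i, j` (from `0`)
is the coefficient of `x ^ (p (i + 1) - (j + 1))` in `f ^ ((p - 1) / 2)`, written as the coefficient of
`x ^ (p (i + 1))` in `x ^ (j + 1) f ^ ((p - 1) / 2)`. For `f` squarefree of degree `2 g + 1` or `2 g + 2` over
a field of characteristic `p > 2` the curve is ordinary if and only if this matrix is invertible. -/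
noncomputable def hasseWitt {R : Type*} [CommRing R] (p g : ℕ) (f : R[X]) :
    Matrix (Fin g) (Fin g) R :=
  Matrix.of fun i j => (X ^ ((j : ℕ) + 1) * f ^ ((p - 1) / 2)).coeff (p * ((i : ℕ) + 1))

section

variable {k : Type*} [Field k] {n : ℕ}

/-- The tensor of the product of the holomorphic forms `∑ (a s) ^ j e_s`, `j = 1, …, g`. -/
def volume (g : ℕ) (a : Fin n → k) : (Fin g → Fin n) → k := fun s =>
  (Matrix.of fun i j : Fin g => a (s i) ^ ((j : ℕ) + 1)).det

/-- The Gauss-Manin connection on tensors of degree `g`, in the direction of the derivation `δ`. -/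
noncomputable def gaussManin {g : ℕ} (a : Fin n → k) (δ : Derivation ℤ k k)
    (T : (Fin g → Fin n) → k) : (Fin g → Fin n) → k := fun s =>
  δ (T s) - (1 / 2) * ∑ i, ∑ t, δ (a (s i) - a t) / (a (s i) - a t) *
    (T s - T (Function.update s i t))

/-- The smallest space of tensors which contains `volume` and is stable under the connection. -/
noncomputable def flatSpan (g : ℕ) (a : Fin n → k) : Submodule k ((Fin g → Fin n) → k) :=
  sInf {W | volume g a ∈ W ∧ ∀ (δ : Derivation ℤ k k), ∀ T ∈ W, gaussManin a δ T ∈ W}

/-- The cup product of `∑ c s e_s` and `∑ d s e_s`. -/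
def cup (a c d : Fin n → k) : k :=
  ∑ s, (∑ t, (c s * d t - c t * d s) / (a s - a t)) / ∏ t ∈ Finset.univ.erase s, (a s - a t)

/-- The value of a tensor at functionals `μ 1, …, μ g`. -/
def value {g : ℕ} (μ : Fin g → Fin n → k) (T : (Fin g → Fin n) → k) : k :=
  ∑ s, T s * ∏ j, μ j (s j)

/-- No Lagrangian subspace kills all the tensors in `flatSpan`. -/
def Spread (a : Fin n → k) : Prop :=
  ∀ μ : Fin ((n - 1) / 2) → Fin n → k, LinearIndependent k μ → (∀ j, ∑ s, μ j s = 0) →
    (∀ c d : Fin n → k, (∀ j, ∑ s, μ j s * c s = 0) → (∀ j, ∑ s, μ j s * d s = 0) →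
      cup a c d = 0) →
    ∃ T ∈ flatSpan ((n - 1) / 2) a, value μ T ≠ 0

/-- The cup product of `P dx / y` and its derivative in the direction `δ` (up to a constant). -/
noncomputable def kodairaSpencer (a : Fin n → k) (δ : Derivation ℤ k k) (P : k[X]) : k :=
  ∑ s, δ (a s) * P.eval (a s) ^ 2 / ∏ t ∈ Finset.univ.erase s, (a s - a t)

/-- The holomorphic forms with isotropic first derivatives vanish at the branch points moved by some
derivation. -/
def FirstOrder (a : Fin n → k) : Prop :=
  ∃ δ₀ : Derivation ℤ k k, (∃ s, δ₀ (a s) ≠ 0) ∧
    ∀ P : k[X], P.degree < ((n - 1) / 2 : ℕ) →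
      (∀ δ : Derivation ℤ k k, kodairaSpencer a δ P = 0) →
      ∀ s, δ₀ (a s) ≠ 0 → P.eval (a s) = 0

/-- the generated tensors form a stable space -/
lemma gen_of_mem (g : ℕ) (a : Fin n → k) (T : (Fin g → Fin n) → k) (hT : T ∈ flatSpan g a) :
    Pool.Agent.D0H58.OR.Gen g a T := by
  obtain ⟨W, hW⟩ : ∃ W : Submodule k ((Fin g → Fin n) → k),
      ∀ T, T ∈ W ↔ Pool.Agent.D0H58.OR.Gen g a T :=
    ⟨{ carrier := {T | Pool.Agent.D0H58.OR.Gen g a T}
       add_mem' := fun h1 h2 => Pool.Agent.D0H58.OR.Gen.add _ _ h1 h2
       zero_mem' := by
         have := Pool.Agent.D0H58.OR.Gen.smul (0 : k) _ (Pool.Agent.D0H58.OR.Gen.vol (g := g) (a := a))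
         rwa [zero_smul] at this
       smul_mem' := fun c T h => Pool.Agent.D0H58.OR.Gen.smul c T h }, fun T => Iff.rfl⟩
  have h1 : flatSpan g a ≤ W := by
    apply sInf_le
    refine ⟨?_, fun δ T hT => ?_⟩
    · rw [hW]; exact Pool.Agent.D0H58.OR.Gen.vol
    · rw [hW] at hT ⊢
      exact Pool.Agent.D0H58.OR.Gen.nabla δ T hT
  exact (hW T).1 (h1 hT)

end

theorem result {k : Type u} {ι : Type*} [Field k] [IsAlgClosed k] [CharZero k] [Fintype ι]
    -- finitely many hyperelliptic curves `y² = ∏ (x - a i s)`
    (n : ι → ℕ) (a : ∀ i, Fin (n i) → k) (ha : ∀ i, Function.Injective (a i))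
    -- the curves of positive genus satisfy one of the two conditions
    (h : ∀ i, 3 ≤ n i → FirstOrder (a i) ∨ Spread (a i))
    -- a finitely generated ring over which the curves are defined, a nonempty open set
    (A : Subalgebra ℤ k) (hA : A.FG) (F : ι → A[X])
    (hF : ∀ i, (F i).map (algebraMap A k) = ∏ s, (X - C (a i s))) (c : A) (hc : c ≠ 0) :
    ∃ N : ℕ, ∀ p : ℕ, N ≤ p → p.Prime → ∃ M : Ideal A, M.IsMaximal ∧ (p : A) ∈ M ∧ c ∉ M ∧
      ∀ i, (hasseWitt p ((n i - 1) / 2) ((F i).map (Ideal.Quotient.mk M))).det ≠ 0 := by
  refine Pool.Agent.D0H58.OR.main2 n a ha (fun i h3 => ?_) A hA F hF c hc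
  rcases h i h3 with h1 | h1
  · exact Or.inl h1
  · refine Or.inr fun μ hμ1 hμ2 hμ3 => ?_
    obtain ⟨T, hT, hne⟩ := h1 μ hμ1 hμ2 hμ3
    exact ⟨T, gen_of_mem _ _ T hT, hne⟩

end Pool.Agent.Results.MP_adc574_ag.GaussManinCriterion
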