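import Pool.Agent.D0H58.HS.Fin

/-!
# Dense ordinary reduction of curves and surfaces with large monodromy

Let `k` be an algebraically closed field of characteristic `0` and `F` a weighted homogeneous polynomial
over `k` of degree `d` in `m ≥ 2` variables with weights `q s ≥ 1`, whose partial derivatives have no
common zero except the origin. So `X : F = 0` is a quasi-smooth hypersurface of dimension `n = m - 2` in a
weighted projective space; if all weights are `1` then `X` is a smooth hypersurface in `ℙ ^ (m - 1)`.

The primitive cohomology `H` of `X` in degree `n` is described by Dwork and Griffiths: let `L` be the span of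
the monomials `x ^ e` with `d ∣ weight e + ∑ s, q s`. Then `H = L / (L ∩ ∑ s, D_s (k[x]))` with
`D_s P = ∂_s P + P ∂_s F`; the monomial `x ^ e` of weight `(j + 1) d - ∑ s, q s` gives the class of
`(-1) ^ j j! x ^ e Ω / F ^ (j + 1)`. Here
* the holomorphic forms of degree `n` are spanned by the monomials `x ^ w` of weight `d - ∑ s, q s`
  (these are the exponents in `Forms`; let `r` be their number, `r = h ^ {n, 0}`);
* the Gauss-Manin connection in the direction of a derivation `δ` of `k` is `P ↦ δ P + (δ F) P`;
* tensors of degree `r` in `H` are given by polynomials in `r` groups of `m` variables. `gaussManin` is the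
  connection on tensors, `volume` the tensor of the product `ω₁ ∧ ⋯ ∧ ω_r` of the basis of the holomorphic
  forms of degree `n`.

`flatSpan` is the smallest `k`-linear space of tensors which contains `volume` and is stable under the
Gauss-Manin connection in the directions of all derivations of `k`.

**Condition `Spread`.** No subspace `U ⊂ H` of codimension `r` kills `flatSpan`: for every such `U` some
tensor in `flatSpan` has nonzero image in `⋀ ^ r (H / U)`. (`U` is given by `r` linearly independent
functionals `μ j` on `H`.)

For curves (`n = 1`) every `U` has a Lagrangian complement, and the tensors of Lagrangian subspaces span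
the primitive part of `⋀ ^ r H`, which is irreducible under `Sp (H)`; for surfaces (`n = 2`) all of
`⋀ ^ r H` is irreducible under `SO (H)`. So `Spread` holds if the monodromy group is as large as possible:
if `F` is the generic member (with scalars extended to `k`) of a family, of any dimension `≥ 1`, with
monodromy Zariski dense in `Sp (H)` (curves), or in `O (H)` or `SO (H)` (surfaces). For instance this is
true for the generic member of a Lefschetz pencil of plane curves, or of surfaces of degree
`≥ 4` in `ℙ³`. (This remark is not proved here.)

**Theorem.** Let `X_i : F_i = 0` be finitely many such hypersurfaces over `k`, each of which satisfies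
`Spread`. Let `A ⊂ k` be a finitely generated ring over which they are defined and `c ≠ 0` in `A`. Then
for all large prime numbers `p` there is a closed point of `Spec A` of characteristic `p` with `c ≠ 0` at
which the Hasse-Witt matrices of all the hypersurfaces are invertible: the Frobenius endomorphism is
bijective on the top cohomology `H ^ n (X, 𝒪)` of the reductions.

The reduction of a plane curve is ordinary if and only if its Hasse-Witt matrix is invertible. The same is
true for the ordinarity of Bloch and Kato of surfaces in `ℙ³`: `H ^ 1 (𝒪) = 0`, so `H ^ j (BΩ ^ 1) = 0` for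
all `j` if and only if the matrix is invertible, and `BΩ ^ 2` is dual to `BΩ ^ 1`. Products of ordinary
varieties are ordinary. So the closed points with ordinary reduction are dense for products
of plane curves and of surfaces in `ℙ³` which satisfy `Spread`.

Proof: a finitely generated ring `R` which is stable under the derivations needed has, for all large `p`, a
prime ideal over `p` which is stable under all derivations. Modulo this prime ideal the coefficients of
`x ^ (p (w + 1) - 1)` in `P ∑_{j < p} F ^ j / j!` are `r` functionals on the polynomials `P` which kill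
`D_s P` and commute with the connection. Their value at `volume` is the determinant of the Hasse-Witt
matrix up to a nonzero factor. If it is zero, then it follows by differentiation that all tensors in
`flatSpan` are killed. This contradicts the certificate which the Nullstellensatz gives for `Spread`.
-/

set_option autoImplicit false

universe u

open MvPolynomial

namespace Pool.Agent.Results.MP_adc574_ag.HypersurfaceCriterion

/-- The exponents of the monomials `x ^ w` of weight `d - ∑ s, q s`, that is of the holomorphic forms
`x ^ w Ω / F` of top degree of the hypersurface `F = 0` of degree `d`. -/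
abbrev Forms {m : ℕ} (q : Fin m → ℕ) (d : ℕ) : Type :=
  {w : Fin m → Fin d // ∑ s, q s * ((w s : ℕ) + 1) = d}

/-- The Hasse-Witt matrix of the hypersurface `F = 0` of degree `d`: the entry with indices `w, w'` is the
coefficient of `x ^ (p (w + 1) - 1)` in `x ^ w' F ^ (p - 1)`. It is (up to transposition) the matrix of the
Frobenius endomorphism of the top cohomology `H ^ (m - 2) (X, 𝒪)` of the hypersurface `X : F = 0`. -/
noncomputable def hasseWitt {R : Type*} [CommRing R] {m : ℕ} (p : ℕ) (q : Fin m → ℕ) (d : ℕ)
    (F : MvPolynomial (Fin m) R) : Matrix (Forms q d) (Forms q d) R :=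
  Matrix.of fun w w' => coeff (Finsupp.equivFunOnFinite.symm fun s => p * ((w.1 s : ℕ) + 1) - 1)
    (monomial (Finsupp.equivFunOnFinite.symm fun s => (w'.1 s : ℕ)) 1 * F ^ (p - 1))

section

variable {k : Type*} [Field k] {m : ℕ}

/-- A derivation of `k` applied to the coefficients of a polynomial. -/
noncomputable def derive {τ : Type*} (δ : Derivation ℤ k k) (P : MvPolynomial τ k) :
    MvPolynomial τ k :=
  ∑ e ∈ P.support, monomial e (δ (coeff e P))

/-- The tensor of the product of the forms `x ^ w Ω / F`, `w ∈ Forms q d`: the determinant of the matrix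
with entries `x_i ^ w`, where `x_i` is the `i`-th group of variables. -/
noncomputable def volume (k : Type*) [Field k] {m : ℕ} (q : Fin m → ℕ) (d : ℕ) :
    MvPolynomial (Forms q d × Fin m) k :=
  (Matrix.of fun i w : Forms q d => rename (Prod.mk i)
    (monomial (Finsupp.equivFunOnFinite.symm fun s => (w.1 s : ℕ)) (1 : k))).det

/-- The Gauss-Manin connection on tensors, in the direction of the derivation `δ`. -/
noncomputable def gaussManin (q : Fin m → ℕ) (d : ℕ) (F : MvPolynomial (Fin m) k)
    (δ : Derivation ℤ k k) (T : MvPolynomial (Forms q d × Fin m) k) :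
    MvPolynomial (Forms q d × Fin m) k :=
  derive δ T + (∑ i, rename (Prod.mk i) (derive δ F)) * T

/-- The smallest space of tensors which contains `volume` and is stable under the connection. -/
noncomputable def flatSpan (q : Fin m → ℕ) (d : ℕ) (F : MvPolynomial (Fin m) k) :
    Submodule k (MvPolynomial (Forms q d × Fin m) k) :=
  sInf {W | volume k q d ∈ W ∧ ∀ (δ : Derivation ℤ k k), ∀ T ∈ W, gaussManin q d F δ T ∈ W}

/-- The value of a tensor at a family of functionals: the value of a product of monomials in the groups of
variables is the product of the values of the functionals. -/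
noncomputable def value {q : Fin m → ℕ} {d : ℕ} (μ : Forms q d → MvPolynomial (Fin m) k →ₗ[k] k)
    (T : MvPolynomial (Forms q d × Fin m) k) : k :=
  ∑ e ∈ T.support, coeff e T *
    ∏ i, μ i (monomial (Finsupp.equivFunOnFinite.symm fun s => e (i, s)) 1)

/-- A functional on the polynomials is a functional on the primitive cohomology of `F = 0` (in the
description of Dwork and Griffiths) if it kills `∂_s P + P ∂_s F` and the monomials
whose weight plus the sum of the variables' weights is not divisible by `d`. -/
def IsCohomological (q : Fin m → ℕ) (d : ℕ) (F : MvPolynomial (Fin m) k)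
    (μ : MvPolynomial (Fin m) k →ₗ[k] k) : Prop :=
  (∀ s P, μ (pderiv s P + P * pderiv s F) = 0) ∧
    ∀ e, ¬ d ∣ Finsupp.weight q e + ∑ s, q s → μ (monomial e 1) = 0

/-- No subspace of the cohomology whose codimension is the number of holomorphic forms of top degree
kills all the tensors in `flatSpan`. -/
def Spread (q : Fin m → ℕ) (d : ℕ) (F : MvPolynomial (Fin m) k) : Prop :=
  ∀ μ : Forms q d → MvPolynomial (Fin m) k →ₗ[k] k, LinearIndependent k μ →
    (∀ i, IsCohomological q d F (μ i)) → ∃ T ∈ flatSpan q d F, value μ T ≠ 0

/-- the generated tensors form a stable space -/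
lemma gen_of_mem (q : Fin m → ℕ) (d : ℕ) (F : MvPolynomial (Fin m) k)
    (T : MvPolynomial (Forms q d × Fin m) k) (hT : T ∈ flatSpan q d F) :
    Pool.Agent.D0H58.HS.Gen F (Pool.Agent.D0H58.HS.hexp (q := q) (d := d)) T := by
  obtain ⟨W, hW⟩ : ∃ W : Submodule k (MvPolynomial (Forms q d × Fin m) k),
      ∀ T, T ∈ W ↔ Pool.Agent.D0H58.HS.Gen F (Pool.Agent.D0H58.HS.hexp (q := q) (d := d)) T :=
    ⟨{ carrier := {T | Pool.Agent.D0H58.HS.Gen F
          (Pool.Agent.D0H58.HS.hexp (q := q) (d := d)) T}
       add_mem' := fun h1 h2 => Pool.Agent.D0H58.HS.Gen.add _ _ h1 h2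
       zero_mem' := by
         have := Pool.Agent.D0H58.HS.Gen.smul (0 : k) _ (Pool.Agent.D0H58.HS.Gen.vol
           (F := F) (w := Pool.Agent.D0H58.HS.hexp (q := q) (d := d)))
         rwa [C_0, zero_mul] at this
       smul_mem' := fun c T h => by
         have := Pool.Agent.D0H58.HS.Gen.smul c T h
         rwa [← smul_eq_C_mul] at this }, fun T => Iff.rfl⟩
  have h1 : flatSpan q d F ≤ W := by
    apply sInf_le
    refine ⟨?_, fun δ T hT => ?_⟩
    · rw [hW]; exact Pool.Agent.D0H58.HS.Gen.vol
    · rw [hW] at hT ⊢
      exact Pool.Agent.D0H58.HS.Gen.nab δ T hT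
  exact (hW T).1 (h1 hT)

lemma value_eq {q : Fin m → ℕ} {d : ℕ} (μ : Forms q d → MvPolynomial (Fin m) k →ₗ[k] k)
    (T : MvPolynomial (Forms q d × Fin m) k) :
    value μ T = Pool.Agent.D0H58.HS.val (fun i e => μ i (monomial e 1)) T := by
  unfold value Pool.Agent.D0H58.HS.val
  refine Finset.sum_congr rfl fun e _ => ?_
  congr 1
  refine Finset.prod_congr rfl fun i _ => ?_
  have h1 : (Finsupp.equivFunOnFinite.symm fun s => e (i, s)) =
      Pool.Agent.D0H58.HS.part e i := by
    ext s
    rfl
  rw [h1]

end

theorem result {k : Type u} {ι : Type*} [Field k] [IsAlgClosed k] [CharZero k] [Fintype ι]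
    -- finitely many quasi-smooth hypersurfaces `F i = 0` of degrees `d i` in weighted projective spaces
    (m : ι → ℕ) (hm : ∀ i, 2 ≤ m i) (q : ∀ i, Fin (m i) → ℕ) (hq : ∀ i s, 1 ≤ q i s) (d : ι → ℕ)
    (hd : ∀ i, 1 ≤ d i) (F : ∀ i, MvPolynomial (Fin (m i)) k)
    (hF : ∀ i, IsWeightedHomogeneous (q i) (F i) (d i))
    (hs : ∀ i, ∀ x : Fin (m i) → k, (∀ s, eval x (pderiv s (F i)) = 0) → x = 0)
    -- which satisfy the condition
    (h : ∀ i, Spread (q i) (d i) (F i))
    -- a finitely generated ring over which they are defined, a nonempty open set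
    (A : Subalgebra ℤ k) (hA : A.FG) (FA : ∀ i, MvPolynomial (Fin (m i)) A)
    (hFA : ∀ i, map (algebraMap A k) (FA i) = F i) (c : A) (hc : c ≠ 0) :
    ∃ N : ℕ, ∀ p : ℕ, N ≤ p → p.Prime → ∃ M : Ideal A, M.IsMaximal ∧ (p : A) ∈ M ∧ c ∉ M ∧
      ∀ i, (hasseWitt p (q i) (d i) (map (Ideal.Quotient.mk M) (FA i))).det ≠ 0 := by
  refine Pool.Agent.D0H58.HS.main3 m hm q hq d hd F hF hs (fun i μ hμ1 hμ2 hμ3 => ?_) A hA FA hFA c hc
  obtain ⟨T, hT, hne⟩ := h i μ hμ1 fun j => ⟨hμ2 j, hμ3 j⟩
  refine ⟨T, gen_of_mem _ _ _ T hT, ?_⟩
  intro h0
  apply hne
  rw [value_eq, h0]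

end Pool.Agent.Results.MP_adc574_ag.HypersurfaceCriterion
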