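import Pool.Agent.D0H58.AD.Fin
import Pool.Agent.D0H58.AD.Mono

/-!
# Dense ordinary reduction of smooth projective varieties with large monodromy

Let `k` be an algebraically closed field of characteristic `0`, `X` a smooth projective variety over `k`
and `X_A` a smooth projective model over a finitely generated ring `A ⊂ k`. We may localize `A`, so
that `A` is smooth over `ℤ` and all Hodge cohomology groups of `X_A` are free. Let `H = H ^ m_dR (X_A / A)`,
a free module with the Hodge filtration and with the Gauss-Manin connection
`∇ : H → H ⊗ Ω ^ 1_{A / ℤ}`; in a basis `H = A ^ n`, `∇ = d + Γ`. For a field `κ` of characteristic `p` over `A` the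
cohomology `H ⊗ κ = H ^ m_dR (X_κ / κ)` has a second filtration, the conjugate filtration. The following facts
are standard (they are not proved here):

* The steps of the conjugate filtration are submodules `U_p` of `H / p H`, and they are stable under the
  Gauss-Manin connection (Katz). For `p > dim X` their ranks are determined by the Hodge numbers
  (Deligne, Illusie).
* Let `p > dim X`. Then `X_κ` is ordinary in the sense of Bloch and Kato if and only if for all `m` and `i` the
  step `F = F ^ i` of the Hodge filtration of `H ^ m` and the step `U` of the conjugate filtration whose rank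
  is `n - rank F` have intersection zero in `H ⊗ κ` (Illusie, Raynaud).

We call a `Step` such a situation: a free `A`-module `H = A ^ n` with a connection `∇ = d + Γ`, a submodule `F` spanned
by `r` vectors `ω j` (a step of the Hodge filtration), and for every `p` in a given set of prime numbers
a submodule `U p` of `H` (the preimage of a submodule of `H / p H`) whose image in `H ⊗ κ` has codimension
at least `s` and is stable under the connection, for all fields `κ` of characteristic `p` over `A`. We
also allow a set `Φ` of polynomial equations which are satisfied by the annihilators of all these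
spaces, for example that they are isotropic for a flat form, or that they are of the type of the
opposite of `F` with respect to the Mumford-Tate group. `rank` is the rank of the map
`F ⊗ κ → (H ⊗ κ) / U p` (for curves: the rank of the Hasse-Witt matrix). The ordinary case is
`rank = r = s`. For `r ≠ s` one gets the general position of two steps which is part of `μ`-ordinarity
(for example at primes which do not split completely in the reflex field, for abelian varieties
with endomorphisms). A step can also be a direct summand of `H ^ m` (cut out by algebraic cycles) with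
its two filtrations.

`volume g` is the tensor of degree `m` in `H` of the product `ω (g 1) ∧ ⋯ ∧ ω (g m)`, and `flatSpan` is the
smallest `k`-linear space of tensors which contains all of them and is stable under the
connection `gaussManin` in the directions of all derivations of `k`.

**Condition `Spread` (for rank `m`).** No subspace `U` of `H ⊗ k` of codimension `s` which satisfies the
equations `Φ` kills `flatSpan`: for every such `U` some tensor in `flatSpan` has nonzero image in
`⋀ ^ m (H / U)`. (`U` is given by `s` linearly independent functionals `μ j`.) If `A` is the coordinate ring of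
a family `X_t`, `t ∈ S`, of varieties (with coefficients in a finitely generated ring) and the equations
`Φ` are flat, then this says, in terms of the period map: there is no fixed subspace
`U ⊂ H (X_0, ℂ)` of codimension `s` which satisfies `Φ` such that the rank of `F (X_t) → H / U` is less than `m`
for all the spaces `F (X_t)`, moved to `X_0` along all paths.

**Condition `Full`.** `galois` is the set of the matrices which preserve all spaces of tensors (of degree
`m`) over `k` which are stable under the connection. It contains the `k`-points of the differential Galois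
group of `H ⊗ k`, that is of the connected algebraic monodromy group of the family. `Full` says that
`galois` contains all isometries of determinant `1` of a nondegenerate alternating form, or of a
nondegenerate symmetric form if `2 r ≠ n`. So it is true if the connected algebraic monodromy group
contains `Sp`, `SO` (`2 r ≠ n`) or `SL`. We prove that `Full` implies `Spread` for all `m ≤ min (r, s)`
(`spread_of_full`), and more generally that `Spread` is true if `galois` moves `F` into general position with
every `U` which satisfies `Φ` (`spread_of_moves`). The last condition is true for all families of abelian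
varieties whose monodromy group is the derived group of the Mumford-Tate group, if `Φ` is the set of
the equations of the type mentioned above and the primes in the set split in the reflex field. By a
theorem of André this is so for all families with nonconstant moduli if the adjoint Mumford-Tate
group is simple over `ℚ`: so all abelian varieties over `k` which are not defined over the field of
algebraic numbers and whose adjoint Mumford-Tate group is simple over `ℚ` have dense ordinary
reduction. (These remarks are not proved here.)

**Theorem.** Let `X_i` be finitely many steps over `A` which satisfy `Spread` or `Full` for the ranks `m_i`,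
and let `c ≠ 0` in `A`. For all large `p` in the given set of primes the fibre `Spec A / p A` is not empty, and the
closed points of it with `c ≠ 0` at which all the ranks are at least `m_i` are dense in the fibre.

Hence a smooth projective variety over `k` has dense ordinary reduction if all steps of the Hodge
filtrations of all `H ^ m` (or of direct summands, as above) satisfy `Spread` or `Full`, with `m = r = s`.
Steps with `F = 0` and `F = H` are trivial, for example the part of `H ^ (2 i)` spanned by algebraic classes.
Since we have density in all the fibres, `H ^ m` may also have a direct summand which comes from a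
variety `Y` over a number field `K`: there are such points above almost all prime ideals of `K` over the
primes in the set, so also above those at which `Y` is ordinary. For example the generic member of a
Lefschetz pencil of hypersurface sections of odd dimension of `Y` has dense ordinary reduction if `Y`
has, and products of `Y` with the varieties above have.

For hyperelliptic curves and for hypersurfaces the properties of the steps are proved in Lean in
`GaussManinCriterion` and `HypersurfaceCriterion` (there with explicit formulas for the connection and for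
the conjugate filtration). Over the algebraic numbers there are no derivations, and `Spread` is false
for `0 < m = r = s < n` without equations `Φ`: this case of the question remains open.

Proof. Let `R ⊃ A` be a finitely generated ring which is stable under the derivations needed. For all
large `p` the prime ideals of `R` over `p` which are stable under all derivations are dense in
`Spec R / p R`: all the minimal prime ideals over `p` which lie over the prime ideal `(p)` of a polynomial
ring over `ℤ` over which `R` is almost finite, of degree less than `p`. Suppose that the rank is less than `m` at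
this prime ideal. Then all the determinants `⟨μ i, ω (g j)⟩`, for `m` functionals `μ i` which vanish on
`U p`, are zero. Since these functionals form a space stable under the dual connection, it follows by
differentiation that the values of all the tensors in `flatSpan` at them are zero. There are `s`
independent ones, so this contradicts the certificate which the Nullstellensatz gives for `Spread`. The
general position at the generic point is true at an open set of points. For `Full`: if `F ∩ U ≠ 0` and
`F + U ≠ H`, then a transvection or reflection in a general vector reduces `F ∩ U`.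
-/

set_option autoImplicit false

universe u

open MvPolynomial

namespace Pool.Agent.Results.MP_adc574_ag.LargeMonodromy

/-- The span in `κ ^ n` of the image of a submodule of `A ^ n`. -/
def fibre {A : Type u} [CommRing A] (κ : Type u) [Field κ] [Algebra A κ] {n : ℕ}
    (U : Submodule A (Fin n → A)) : Submodule κ (Fin n → κ) :=
  Submodule.span κ ((fun v t => algebraMap A κ (v t)) '' (U : Set (Fin n → A)))

/-- The dimension of a subspace of `κ ^ n`. -/
noncomputable def dim {κ : Type u} [Field κ] {n : ℕ} (W : Submodule κ (Fin n → κ)) : ℕ :=
  Module.finrank κ W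

/-- The connection `d + Γ` on `A ^ n`, in the direction of a derivation `δ : A → κ`. -/
noncomputable def nabla {A κ : Type u} [CommRing A] [CommRing κ] [Algebra A κ] {n : ℕ}
    (Γ : Matrix (Fin n) (Fin n) (Ω[A⁄ℤ])) (δ : Derivation ℤ A κ) (v : Fin n → A) : Fin n → κ :=
  fun a => δ (v a) + ∑ b, δ.liftKaehlerDifferential (Γ a b) * algebraMap A κ (v b)

/-- A free module `H = A ^ n` with connection, a step `F` of the Hodge filtration, and steps `U p` of
the conjugate filtrations modulo the primes `p` in the set `P`. -/
structure Step (A : Type u) [CommRing A] (P : Set ℕ) where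
  /-- the rank of `H` -/
  n : ℕ
  /-- the rank of `F` -/
  r : ℕ
  /-- the codimension of `U p` in `H / p H` -/
  s : ℕ
  /-- the connection is `d + Γ` -/
  Γ : Matrix (Fin n) (Fin n) (Ω[A⁄ℤ])
  /-- the basis of `F` -/
  ω : Fin r → Fin n → A
  /-- the preimage in `H` of a submodule of `H / p H` -/
  U : ℕ → Submodule A (Fin n → A)
  /-- equations for the `s × n`-matrices whose rows are functionals which vanish on `U p` -/
  Φ : Set (MvPolynomial (Fin s × Fin n) A)
  /-- at all points of characteristic `p` the codimension is at least `s` -/
  codim : ∀ p ∈ P, ∀ (κ : Type u) [Field κ] [CharP κ p] [Algebra A κ],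
    dim (fibre κ (U p)) + s ≤ n
  /-- stability under the connection -/
  horizontal : ∀ p ∈ P, ∀ (κ : Type u) [Field κ] [CharP κ p] [Algebra A κ]
    (δ : Derivation ℤ A κ), ∀ v ∈ U p, nabla Γ δ v ∈ fibre κ (U p)
  /-- the equations are satisfied by independent functionals which vanish on `U p` -/
  relations : ∀ p ∈ P, ∀ (κ : Type u) [Field κ] [CharP κ p] [Algebra A κ]
    (μ : Fin s → Fin n → κ), LinearIndependent κ μ →
      (∀ j, ∀ v ∈ U p, ∑ t, μ j t * algebraMap A κ (v t) = 0) →
        ∀ Q ∈ Φ, aeval (fun x => μ x.1 x.2) Q = 0

section

variable {A : Type u} [CommRing A] {P : Set ℕ} (X : Step A P)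

/-- The step of the Hodge filtration over a field `κ`: the space spanned by the `ω j`. -/
def Step.hodge (κ : Type u) [Field κ] [Algebra A κ] : Submodule κ (Fin X.n → κ) :=
  Submodule.span κ (Set.range fun j t => algebraMap A κ (X.ω j t))

/-- The rank of the map from `F` to `H / U p` over a field `κ`: the dimension of `F + U p` minus the
dimension of `U p`. -/
noncomputable def Step.rank (p : ℕ) (κ : Type u) [Field κ] [Algebra A κ] : ℕ :=
  dim (X.hodge κ ⊔ fibre κ (X.U p)) - dim (fibre κ (X.U p))

/-- At the maximal ideal `M` the rank is at least `m`. -/
def Step.RankAt (p m : ℕ) (M : Ideal A) : Prop :=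
  ∀ (κ : Type u) [Field κ] [Algebra A κ], RingHom.ker (algebraMap A κ) = M → m ≤ X.rank p κ

variable (k : Type u) [Field k] [Algebra A k] (m : ℕ)

/-- The tensor of the product `ω (g 1) ∧ ⋯ ∧ ω (g m)`. A tensor `T` of degree `m` in `k ^ n` is given by
its coordinates `T (t 1, …, t m)`. -/
noncomputable def Step.volume (g : Fin m → Fin X.r) : (Fin m → Fin X.n) → k := fun t =>
  (Matrix.of fun i j : Fin m => algebraMap A k (X.ω (g j) (t i))).det

variable {m} in
/-- The connection on tensors, in the direction of a derivation of `k`. -/
noncomputable def Step.gaussManin (δ : Derivation ℤ k k) (T : (Fin m → Fin X.n) → k) :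
    (Fin m → Fin X.n) → k := fun t =>
  δ (T t) + ∑ i, ∑ b, (δ.compAlgebraMap A).liftKaehlerDifferential (X.Γ (t i) b) *
    T (Function.update t i b)

variable {k m} in
/-- A space of tensors which is stable under the connection, in all directions. -/
def Step.Horizontal (W : Submodule k ((Fin m → Fin X.n) → k)) : Prop :=
  ∀ (δ : Derivation ℤ k k), ∀ T ∈ W, X.gaussManin k δ T ∈ W

/-- The smallest horizontal space of tensors of degree `m` which contains all products of `m` vectors
in `F`. -/
noncomputable def Step.flatSpan : Submodule k ((Fin m → Fin X.n) → k) :=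
  sInf {W | (∀ g, X.volume k m g ∈ W) ∧ X.Horizontal W}

/-- The value of a tensor at functionals `μ 1, …, μ m`. -/
def value {k : Type*} [CommRing k] {m n : ℕ} (μ : Fin m → Fin n → k) (T : (Fin m → Fin n) → k) : k :=
  ∑ t, T t * ∏ i, μ i (t i)

/-- No subspace of codimension `s` of `k ^ n` which satisfies the equations `Φ` kills `flatSpan`. -/
def Step.Spread : Prop :=
  ∀ μ : Fin X.s → Fin X.n → k, LinearIndependent k μ →
    (∀ Q ∈ X.Φ, aeval (fun x => μ x.1 x.2) Q = 0) →
    ∃ T ∈ X.flatSpan k m, ∃ f : Fin m → Fin X.s, value (fun i => μ (f i)) T ≠ 0

/-- The matrices `γ` which preserve all horizontal spaces of tensors of degree `m`. -/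
def Step.galois : Set (Matrix (Fin X.n) (Fin X.n) k) :=
  {γ | ∀ W : Submodule k ((Fin m → Fin X.n) → k), X.Horizontal W →
    ∀ T ∈ W, (fun t => value (fun i => γ (t i)) T) ∈ W}

/-- The monodromy group is full: for a nondegenerate bilinear form `B` which is alternating, or
symmetric (if `2 r ≠ n`), the group `galois` contains all isometries of determinant `1`. Moreover
the `ω j` are linearly independent. -/
def Step.Full : Prop :=
  LinearIndependent k (fun j t => algebraMap A k (X.ω j t)) ∧
  ∃ B : Matrix (Fin X.n) (Fin X.n) k, B.det ≠ 0 ∧
    (B.transpose = -B ∨ B.transpose = B ∧ 2 * X.r ≠ X.n) ∧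
    ∀ γ : Matrix (Fin X.n) (Fin X.n) k, γ.transpose * B * γ = B → γ.det = 1 → γ ∈ X.galois k m

end

/-- The fibre `Spec A / p A` is not empty, and the maximal ideals over `p` which do not contain `c` and
have the property `S` are dense in it. -/
def DenseInFibre {A : Type u} [CommRing A] (p : ℕ) (c : A) (S : Ideal A → Prop) : Prop :=
  Ideal.span {(p : A)} ≠ ⊤ ∧ ∀ a ∉ (Ideal.span {(p : A)}).radical,
    ∃ M : Ideal A, M.IsMaximal ∧ (p : A) ∈ M ∧ a ∉ M ∧ c ∉ M ∧ S M

section lemmas

variable {A : Type u} [CommRing A] {P : Set ℕ} (X : Step A P) (k : Type u) [Field k] [Algebra A k]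
  (m : ℕ)

/-- `Spread` is true if `galois` moves `F` into general position with all `U`. -/
theorem spread_of_moves (h : ∀ μ : Fin X.s → Fin X.n → k, LinearIndependent k μ →
    (∀ Q ∈ X.Φ, aeval (fun x => μ x.1 x.2) Q = 0) → ∃ γ ∈ X.galois k m,
      ∃ (f : Fin m → Fin X.s) (g : Fin m → Fin X.r), (Matrix.of fun i j : Fin m =>
        ∑ t, μ (f i) t * ∑ x, γ t x * algebraMap A k (X.ω (g j) x)).det ≠ 0) :
    X.Spread k m := by
  classical
  intro μ hμ hΦ
  obtain ⟨γ, hγ, f, g, hfg⟩ := h μ hμ hΦ
  have h1 : X.volume k m g ∈ X.flatSpan k m := by
    unfold Step.flatSpan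
    rw [Submodule.mem_sInf]
    rintro W ⟨hW1, -⟩
    exact hW1 g
  have h2 : X.Horizontal (X.flatSpan k m) := by
    intro δ T hT
    unfold Step.flatSpan at hT ⊢
    rw [Submodule.mem_sInf] at hT ⊢
    intro W hW
    exact hW.2 δ T (hT W hW)
  refine ⟨_, hγ _ h2 _ h1, f, ?_⟩
  have h3 : (fun t => value (fun i => γ (t i)) (X.volume k m g)) =
      Pool.Agent.D0H58.AD.vol (fun j y => ∑ x, γ y x * algebraMap A k (X.ω (g j) x)) := by
    funext t
    have := Pool.Agent.D0H58.AD.pr_vol (X := k) (fun j x => algebraMap A k (X.ω (g j) x))
      (fun i => γ (t i))
    change Pool.Agent.D0H58.OR.pr (fun i => γ (t i)) (Pool.Agent.D0H58.AD.vol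
      (fun j x => algebraMap A k (X.ω (g j) x))) = _
    rw [this]
    unfold Pool.Agent.D0H58.AD.vol
    congr 1
    ext1 i j
    rw [Matrix.of_apply, Matrix.of_apply]
    refine Finset.sum_congr rfl fun x _ => mul_comm _ _
  rw [h3]
  change Pool.Agent.D0H58.OR.pr (fun i => μ (f i)) (Pool.Agent.D0H58.AD.vol
    (fun j y => ∑ x, γ y x * algebraMap A k (X.ω (g j) x))) ≠ 0
  rw [Pool.Agent.D0H58.AD.pr_vol]
  intro h4
  apply hfg
  rw [← h4]
  congr 1
  ext1 i j
  rw [Matrix.of_apply, Matrix.of_apply]
  refine Finset.sum_congr rfl fun x _ => mul_comm _ _

/-- `Spread` is true if the monodromy group is full. -/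
theorem spread_of_full [CharZero k] (h : X.Full k m) (hr : m ≤ X.r) (hs : m ≤ X.s) :
    X.Spread k m := by
  obtain ⟨hω, B, hB0, hB, hγ⟩ := h
  refine spread_of_moves X k m fun μ hμ _ => ?_
  obtain ⟨T, hT1, hT2, f, g, hfg⟩ := Pool.Agent.D0H58.AD.iso_minor B hB0 hB _ hω μ hμ hr hs
  exact ⟨T, hγ T hT1 hT2, f, g, hfg⟩

/-- the rank from independent vectors -/
lemma le_rank (p : ℕ) (κ : Type u) [Field κ] [Algebra A κ] (σ : Fin m → Fin X.r)
    (h : ∀ e : Fin m → κ, (fun t => ∑ j, e j * algebraMap A κ (X.ω (σ j) t)) ∈
      fibre κ (X.U p) → e = 0) : m ≤ X.rank p κ := by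
  classical
  have h1 : LinearIndependent κ fun (j : Fin m) t => algebraMap A κ (X.ω (σ j) t) := by
    rw [Fintype.linearIndependent_iff]
    intro e he j
    refine congrFun (h e ?_) j
    have h2 : (fun t => ∑ j, e j * algebraMap A κ (X.ω (σ j) t)) = 0 := by
      rw [← he]
      funext t
      rw [Finset.sum_apply]
      rfl
    rw [h2]
    exact Submodule.zero_mem _
  have h3 := finrank_span_eq_card h1
  rw [Fintype.card_fin] at h3
  obtain ⟨W, hW⟩ : ∃ W : Submodule κ (Fin X.n → κ),
    W = Submodule.span κ (Set.range fun (j : Fin m) t => algebraMap A κ (X.ω (σ j) t)) := ⟨_, rfl⟩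
  rw [← hW] at h3
  have h4 : W ⊓ fibre κ (X.U p) = ⊥ := by
    rw [eq_bot_iff]
    rintro x ⟨hx, hxU⟩
    rw [hW] at hx
    obtain ⟨e, rfl⟩ := (Submodule.mem_span_range_iff_exists_fun κ).1 hx
    have h5 : (∑ j, e j • fun t => algebraMap A κ (X.ω (σ j) t)) =
        fun t => ∑ j, e j * algebraMap A κ (X.ω (σ j) t) := by
      funext t
      rw [Finset.sum_apply]
      rfl
    have h6 := h e (by rw [← h5]; exact hxU)
    rw [h6, Submodule.mem_bot]
    simp
  have h5 := Submodule.finrank_sup_add_finrank_inf_eq W (fibre κ (X.U p))
  rw [h4, finrank_bot, add_zero, h3] at h5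
  have h6 : Module.finrank κ (W ⊔ fibre κ (X.U p) : Submodule κ (Fin X.n → κ)) ≤
      Module.finrank κ (X.hodge κ ⊔ fibre κ (X.U p) : Submodule κ (Fin X.n → κ)) := by
    apply Submodule.finrank_mono
    refine sup_le_sup_right ?_ _
    rw [hW]
    apply Submodule.span_mono
    rintro _ ⟨j, rfl⟩
    exact ⟨σ j, rfl⟩
  unfold Step.rank dim
  omega

end lemmas

/-- forms as finite sums -/
lemma exists_rep {A : Type u} [CommRing A] {n : ℕ} (Γ : Matrix (Fin n) (Fin n) (Ω[A⁄ℤ])) :
    ∃ (B : Finset A) (C : {x // x ∈ B} → Fin n → Fin n → A),
      ∀ (κ : Type u) [CommRing κ] [Algebra A κ] (δ : Derivation ℤ A κ) (a b : Fin n),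
        δ.liftKaehlerDifferential (Γ a b) = ∑ l, δ l.1 * algebraMap A κ (C l a b) := by
  classical
  have h : ∀ a b, ∃ c : A →₀ A, c.sum (fun x e => e • KaehlerDifferential.D ℤ A x) = Γ a b := by
    intro a b
    have h1 : Γ a b ∈ Submodule.span A (Set.range (KaehlerDifferential.D ℤ A)) := by
      rw [KaehlerDifferential.span_range_derivation]
      trivial
    exact Finsupp.mem_span_range_iff_exists_finsupp.1 h1
  choose c hc using h
  refine ⟨Finset.univ.biUnion fun a => Finset.univ.biUnion fun b => (c a b).support,
    fun l a b => c a b l.1, ?_⟩
  intro κ _ _ δ a b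
  rw [← hc, Finsupp.sum_of_support_subset (c a b) (s := Finset.univ.biUnion fun a =>
    Finset.univ.biUnion fun b => (c a b).support), map_sum]
  · rw [← Finset.sum_coe_sort (Finset.univ.biUnion fun a => Finset.univ.biUnion fun b =>
      (c a b).support)]
    refine Finset.sum_congr rfl fun l _ => ?_
    rw [map_smul, Derivation.liftKaehlerDifferential_comp_D, Algebra.smul_def, mul_comm]
  · exact (Finset.subset_biUnion_of_mem (fun b => (c a b).support) (Finset.mem_univ b)).trans
      (Finset.subset_biUnion_of_mem (fun a => Finset.univ.biUnion fun b => (c a b).support)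
        (Finset.mem_univ a))
  · intro x _
    rw [zero_smul]

/-- **Dense ordinary reduction.** -/
theorem result {k : Type u} {ι : Type*} [Field k] [IsAlgClosed k] [CharZero k] [Fintype ι]
    -- a finitely generated ring and a set of prime numbers
    (A : Subalgebra ℤ k) (hA : A.FG) (P : Set ℕ)
    -- finitely many steps and ranks
    (X : ι → Step A P) (m : ι → ℕ)
    -- one of the conditions is true for each of them
    (h : ∀ i, (X i).Spread k (m i) ∨ (X i).Full k (m i) ∧ m i ≤ (X i).r ∧ m i ≤ (X i).s)
    -- a nonempty open set
    (c : A) (hc : c ≠ 0) :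
    ∃ N : ℕ, ∀ p ∈ P, N ≤ p → p.Prime → DenseInFibre p c fun M => ∀ i, (X i).RankAt p (m i) M := by
  classical
  choose B C hBC using fun i => exists_rep (X i).Γ
  have hS : ∀ i, (X i).Spread k (m i) := fun i =>
    (h i).elim id fun h1 => spread_of_full (X i) k (m i) h1.1 h1.2.1 h1.2.2
  obtain ⟨N, hN⟩ := Pool.Agent.D0H58.AD.main (k := k) A hA P (fun i => (X i).n) (fun i => (X i).r)
    m (fun i => (X i).s) (fun i => {x // x ∈ B i}) (fun i => ⟨fun l => l.1, C i, (X i).ω⟩)
    (fun i p => ((X i).U p : Set (Fin (X i).n → A))) (fun i => (X i).Φ)
    (fun i p hp K _ _ f => by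
      letI := f.toAlgebra
      exact (X i).codim p hp K)
    (fun i p hp K _ _ f δ h1 h2 v hv => by
      letI := f.toAlgebra
      obtain ⟨D, hD⟩ := Pool.Agent.D0H58.AD.exists_derivation (A := A) (K := K) δ h1 h2
      have h3 := (X i).horizontal p hp K D v hv
      have h4 : nabla (X i).Γ D v = fun a => δ (v a) + ∑ b, (∑ l, δ (l : {x // x ∈ B i}).1 *
          f (C i l a b)) * f (v b) := by
        funext a
        unfold nabla
        rw [hD]
        congr 1
        refine Finset.sum_congr rfl fun b _ => ?_
        rw [hBC]
        congr 1
        refine Finset.sum_congr rfl fun l _ => ?_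
        rw [hD]
        rfl
      rw [h4] at h3
      exact h3)
    (fun i p hp K _ _ f μ h1 h2 Q hQ => by
      letI := f.toAlgebra
      exact (X i).relations p hp K μ h1 h2 Q hQ)
    (fun i μ h1 h2 => by
      obtain ⟨T, hT, g, hg⟩ := hS i μ h1 (fun Q hQ => by
        have h3 := h2 _ ⟨Q, hQ, rfl⟩
        rw [eval_map] at h3
        exact h3)
      refine ⟨T, ?_, g, hg⟩
      obtain ⟨d, hd⟩ : ∃ d : Pool.Agent.D0H58.AD.Dat k {x // x ∈ B i} (X i).n (X i).r, d =
        Pool.Agent.D0H58.AD.Dat.map (algebraMap A k) ⟨fun l => l.1, C i, (X i).ω⟩ := ⟨_, rfl⟩
      rw [← hd]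
      by_cases hemp : Nonempty (Fin (m i) → Fin (X i).r)
      · obtain ⟨g0⟩ := hemp
        obtain ⟨W, hW⟩ : ∃ W : Submodule k ((Fin (m i) → Fin (X i).n) → k),
            ∀ T, T ∈ W ↔ Pool.Agent.D0H58.AD.Gen d T :=
          ⟨{ carrier := {T | Pool.Agent.D0H58.AD.Gen d T}
             add_mem' := fun h1 h2 => Pool.Agent.D0H58.AD.Gen.add _ _ h1 h2
             zero_mem' := by
               have := Pool.Agent.D0H58.AD.Gen.smul (0 : k) _
                 (Pool.Agent.D0H58.AD.Gen.vol (d := d) g0)
               rwa [zero_smul] at this
             smul_mem' := fun c T h => Pool.Agent.D0H58.AD.Gen.smul c T h }, fun T => Iff.rfl⟩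
        have h5 : (X i).flatSpan k (m i) ≤ W := by
          apply sInf_le
          refine ⟨fun g => ?_, fun δ T hT => ?_⟩
          · rw [hW]
            have h6 := Pool.Agent.D0H58.AD.Gen.vol (d := d) g
            rw [hd] at h6 ⊢
            exact h6
          · rw [hW] at hT ⊢
            have h6 := Pool.Agent.D0H58.AD.Gen.nab δ T hT
            have h7 : (X i).gaussManin k δ T = Pool.Agent.D0H58.AD.nab d δ T := by
              funext t
              unfold Step.gaussManin Pool.Agent.D0H58.AD.nab Pool.Agent.D0H58.AD.gam
              congr 1
              refine Finset.sum_congr rfl fun a _ => Finset.sum_congr rfl fun b _ => ?_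
              rw [hBC, hd]
              rfl
            rw [h7]
            exact h6
        exact (hW T).1 (h5 hT)
      · -- there are no products, so `flatSpan` is zero
        exfalso
        have h5 : (X i).flatSpan k (m i) ≤ ⊥ := by
          apply sInf_le
          refine ⟨fun g => absurd ⟨g⟩ hemp, fun δ T hT => ?_⟩
          rw [Submodule.mem_bot] at hT ⊢
          rw [hT]
          funext t
          unfold Step.gaussManin
          simp
        have h6 := h5 hT
        rw [Submodule.mem_bot] at h6
        apply hg
        rw [h6]
        unfold value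
        simp) c hc
  refine ⟨N, fun p hp hNp hpp => ?_⟩
  obtain ⟨h0, hN'⟩ := hN p hp hNp hpp
  refine ⟨h0, fun a ha => ?_⟩
  obtain ⟨M, h1, h2, h2', h3, h4⟩ := hN' a ha
  refine ⟨M, h1, h2, h2', h3, fun i κ _ _ hκ => ?_⟩
  obtain ⟨σ, hσ⟩ := h4 i
  exact le_rank (X i) (m i) p κ σ fun e he => hσ κ (algebraMap A κ) hκ e he

end Pool.Agent.Results.MP_adc574_ag.LargeMonodromy
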